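import Pool.Agent.H92RevOld.Main

set_option autoImplicit false
open Filter Topology

namespace Pool.Agent.H92Rev

theorem tendsto_y : Tendsto (fun y : ℝ => (![0, (y : ℂ), 0] : Fin 3 → ℂ)) (𝓝[>] 0) (𝓝 0) := by
  have hc : Continuous (fun y : ℝ => (![0, (y : ℂ), 0] : Fin 3 → ℂ)) := by
    apply continuous_pi
    intro i
    fin_cases i
    · exact continuous_const
    · exact Complex.continuous_ofReal
    · exact continuous_const
  have h1 := hc.tendsto 0
  have h2 : (![0, ((0 : ℝ) : ℂ), 0] : Fin 3 → ℂ) = 0 := by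
    funext i; fin_cases i <;> simp
  rw [h2] at h1
  exact h1.mono_left nhdsWithin_le_nhds

variable {h : (Fin 3 → ℂ) → (Fin 3 → ℂ)}

theorem deriv_x (y : ℂ) (hd : DifferentiableAt ℂ h ![0, y, 0]) (i : Fin 3) :
    HasDerivAt (fun x : ℂ => h ![x, y, 0] i) (fderiv ℂ h ![0, y, 0] ![1, 0, 0] i) 0 := by
  have h1 : HasDerivAt (fun x : ℂ => (![x, y, 0] : Fin 3 → ℂ)) ![1, 0, 0] 0 := by
    rw [hasDerivAt_pi]
    intro i
    fin_cases i
    · exact hasDerivAt_id _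
    · exact hasDerivAt_const _ _
    · exact hasDerivAt_const _ _
  have h2 := hd.hasFDerivAt
  exact (hasDerivAt_pi.1 (h2.comp_hasDerivAt (0 : ℂ) h1)) i

theorem deriv_y (hd : DifferentiableAt ℂ h 0) (i : Fin 3) :
    HasDerivAt (fun y : ℂ => h ![0, y, 0] i) (fderiv ℂ h 0 ![0, 1, 0] i) 0 := by
  have h1 : HasDerivAt (fun y : ℂ => (![0, y, 0] : Fin 3 → ℂ)) ![0, 1, 0] 0 := by
    rw [hasDerivAt_pi]
    intro i
    fin_cases i
    · exact hasDerivAt_const _ _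
    · exact hasDerivAt_id _
    · exact hasDerivAt_const _ _
  have h0 : (![0, 0, 0] : Fin 3 → ℂ) = 0 := by
    funext i; fin_cases i <;> simp
  have h2 : HasFDerivAt h (fderiv ℂ h 0) ![0, 0, 0] := by
    rw [h0]; exact hd.hasFDerivAt
  exact (hasDerivAt_pi.1 (h2.comp_hasDerivAt (0 : ℂ) h1)) i

theorem decomp (L : (Fin 3 → ℂ) →L[ℂ] (Fin 3 → ℂ)) (v : Fin 3 → ℂ) (i : Fin 3) :
    L v i = v 0 * L ![1, 0, 0] i + v 1 * L ![0, 1, 0] i + v 2 * L ![0, 0, 1] i := by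
  have hv : v = v 0 • ![1, 0, 0] + v 1 • ![0, 1, 0] + v 2 • ![0, 0, 1] := by
    funext j
    fin_cases j <;> simp
  conv_lhs => rw [hv]
  simp only [map_add, map_smul, Pi.add_apply, Pi.smul_apply, smul_eq_mul]

theorem final (hA : AnalyticAt ℂ h 0) (h0 : h 0 = 0) (g : (Fin 3 → ℂ) → (Fin 3 → ℂ))
    (hgA : AnalyticAt ℂ g 0) (g0 : g 0 = 0) (hgh : g ∘ h =ᶠ[𝓝 (0 : Fin 3 → ℂ)] id)
    (hhg : h ∘ g =ᶠ[𝓝 (0 : Fin 3 → ℂ)] id) (hR : fM ∘ h ∘ fM =ᶠ[𝓝 (0 : Fin 3 → ℂ)] h)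
    (k : ℕ) (hk : 0 < k) (hper : h^[k] =ᶠ[𝓝 (0 : Fin 3 → ℂ)] id) : False := by
  -- germ data at the points (0,y,0)
  have hev : ∀ᶠ y : ℝ in 𝓝[>] 0, AnalyticAt ℂ h ![0, (y : ℂ), 0] ∧
      (∀ᶠ p in 𝓝 (![0, (y : ℂ), 0] : Fin 3 → ℂ), fM (h (fM p)) = h p) ∧
      (∀ᶠ p in 𝓝 (![0, (y : ℂ), 0] : Fin 3 → ℂ), g (h p) = p) := by
    have h1 := tendsto_y.eventually hA.eventually_analyticAt
    have h2 := tendsto_y.eventually (eventually_eventually_nhds.2 hR)
    have h3 := tendsto_y.eventually (eventually_eventually_nhds.2 hgh)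
    filter_upwards [h1, h2, h3] with y a b c
    exact ⟨a, b, c⟩
  have hpos : ∀ᶠ y : ℝ in 𝓝[>] 0, 0 < y := self_mem_nhdsWithin
  set L := fderiv ℂ h 0 with hL
  -- surjectivity
  have hsurj : ∀ u, ∃ v, L v = u := by
    have h1 : HasFDerivAt (h ∘ g) (L.comp (fderiv ℂ g 0)) 0 := by
      apply HasFDerivAt.comp
      · rw [g0]; exact hA.differentiableAt.hasFDerivAt
      · exact hgA.differentiableAt.hasFDerivAt
    have h2 := (h1.congr_of_eventuallyEq hhg.symm).unique (hasFDerivAt_id (0 : Fin 3 → ℂ))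
    intro u
    refine ⟨fderiv ℂ g 0 u, ?_⟩
    have := congrArg (fun T : (Fin 3 → ℂ) →L[ℂ] (Fin 3 → ℂ) => T u) h2
    simpa using this
  -- continuity of the derivative
  have hcont : ∀ (v : Fin 3 → ℂ) (i : Fin 3),
      Tendsto (fun y : ℝ => fderiv ℂ h ![0, (y : ℂ), 0] v i) (𝓝[>] 0) (𝓝 (L v i)) := by
    intro v i
    have h1 : ContinuousAt (fderiv ℂ h) 0 := hA.fderiv.continuousAt
    have h2 : Tendsto (fun y : ℝ => fderiv ℂ h ![0, (y : ℂ), 0]) (𝓝[>] 0) (𝓝 (fderiv ℂ h 0)) :=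
      h1.tendsto.comp tendsto_y
    have h3 : Continuous (fun T : (Fin 3 → ℂ) →L[ℂ] (Fin 3 → ℂ) => T v i) :=
      (continuous_apply i).comp (ContinuousLinearMap.apply ℂ (Fin 3 → ℂ) v).continuous
    exact (h3.tendsto _).comp h2
  have hlim0 : ∀ (v : Fin 3 → ℂ) (i : Fin 3),
      (∀ᶠ y : ℝ in 𝓝[>] 0, fderiv ℂ h ![0, (y : ℂ), 0] v i = 0) → L v i = 0 := by
    intro v i hz
    apply tendsto_nhds_unique (hcont v i)
    apply tendsto_const_nhds.congr'
    filter_upwards [hz] with y hy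
    rw [hy]
  -- second row
  have hx1 : L ![1, 0, 0] 1 = 0 := by
    apply hlim0
    filter_upwards [hev, hpos] with y h1 hy
    have h2 := step1 hy h1.1 h1.2.1
    have h3 := deriv_x (y : ℂ) h1.1.differentiableAt 1
    have h4 : HasDerivAt (fun x : ℂ => h ![x, (y : ℂ), 0] 1) 0 0 :=
      (hasDerivAt_const (0 : ℂ) (h ![0, (y : ℂ), 0] 1)).congr_of_eventuallyEq h2
    exact h3.unique h4
  have hz1 : L ![0, 0, 1] 1 = 0 := by
    apply hlim0
    filter_upwards [hev, hpos] with y h1 hy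
    exact step2 hy h1.1 h1.2.1
  have hβ : L ![0, 1, 0] 1 ≠ 0 := by
    intro hb
    obtain ⟨v, hv⟩ := hsurj ![0, 1, 0]
    have h1 := decomp L v 1
    rw [hx1, hz1, hb, hv] at h1
    simp at h1
  -- the second coordinate along the curve is nonzero
  have hφ : ∀ᶠ y : ℝ in 𝓝[>] 0, h ![0, (y : ℂ), 0] 1 ≠ 0 := by
    have h1 := (deriv_y hA.differentiableAt 1).eventually_ne (c := 0) hβ
    have h2 : Tendsto (fun y : ℝ => (y : ℂ)) (𝓝[>] 0) (𝓝[≠] 0) := by
      rw [tendsto_nhdsWithin_iff]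
      constructor
      · have := Complex.continuous_ofReal.tendsto 0
        rw [Complex.ofReal_zero] at this
        exact this.mono_left nhdsWithin_le_nhds
      · filter_upwards [hpos] with y hy
        exact Complex.ofReal_ne_zero.2 hy.ne'
    exact h2.eventually h1
  -- the shape of `h` on `z = 0`
  have hshape : ∀ᶠ y : ℝ in 𝓝[>] 0, h ![0, (y : ℂ), 0] 0 = 0 ∧
      (∀ᶠ x in 𝓝 (0 : ℂ), h ![x, (y : ℂ), 0] 2 = 0) := by
    filter_upwards [hev, hpos, hφ] with y h1 hy h2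
    obtain ⟨h00, c, hc⟩ := step3a hy h1.1 h1.2.1 h2 g h1.2.2
    exact ⟨h00, step3b hy h1.1 h1.2.1 h2 h00 c hc⟩
  have hx2 : L ![1, 0, 0] 2 = 0 := by
    apply hlim0
    filter_upwards [hev, hshape] with y h1 h2
    have h3 := deriv_x (y : ℂ) h1.1.differentiableAt 2
    have h4 : HasDerivAt (fun x : ℂ => h ![x, (y : ℂ), 0] 2) 0 0 :=
      (hasDerivAt_const (0 : ℂ) (0 : ℂ)).congr_of_eventuallyEq h2.2
    exact h3.unique h4
  have hy2 : L ![0, 1, 0] 2 = 0 := by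
    have h1 := deriv_y hA.differentiableAt 2
    have h2 : AnalyticAt ℂ (fun y : ℂ => h ![0, y, 0] 2) 0 := by
      have h3 : AnalyticAt ℂ (fun y : ℂ => (![0, y, 0] : Fin 3 → ℂ)) 0 :=
        vec3_analytic analyticAt_const analyticAt_id analyticAt_const
      have h4 : (![0, 0, 0] : Fin 3 → ℂ) = 0 := by
        funext i; fin_cases i <;> simp
      have h5 : AnalyticAt ℂ h ![0, 0, 0] := by rw [h4]; exact hA
      have h6 : AnalyticAt ℂ (fun y : ℂ => h ![0, y, 0]) 0 :=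
        AnalyticAt.comp (g := h) (f := fun y : ℂ => (![0, y, 0] : Fin 3 → ℂ)) h5 h3
      exact (coord_analytic 2 _).comp h6
    have h7 : ∃ᶠ y in 𝓝[≠] (0 : ℂ), h ![0, y, 0] 2 = (fun _ : ℂ => (0 : ℂ)) y := by
      have h8 : Tendsto (fun y : ℝ => (y : ℂ)) (𝓝[>] 0) (𝓝[≠] 0) := by
        rw [tendsto_nhdsWithin_iff]
        constructor
        · have := Complex.continuous_ofReal.tendsto 0
          rw [Complex.ofReal_zero] at this
          exact this.mono_left nhdsWithin_le_nhds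
        · filter_upwards [hpos] with y hy
          exact Complex.ofReal_ne_zero.2 hy.ne'
      apply h8.frequently
      apply Eventually.frequently
      filter_upwards [hshape] with y h9
      exact h9.2.self_of_nhds
    have h8 := (h2.frequently_eq_iff_eventually_eq analyticAt_const).1 h7
    have h9 : HasDerivAt (fun y : ℂ => h ![0, y, 0] 2) 0 0 :=
      (hasDerivAt_const (0 : ℂ) (0 : ℂ)).congr_of_eventuallyEq h8
    exact h1.unique h9
  have hγ : L ![0, 0, 1] 2 ≠ 0 := by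
    intro hb
    obtain ⟨v, hv⟩ := hsurj ![0, 0, 1]
    have h1 := decomp L v 2
    rw [hx2, hy2, hb, hv] at h1
    simp at h1
  have hH : ∀ᶠ y : ℝ in 𝓝[>] 0, fderiv ℂ h ![0, (y : ℂ), 0] ![0, 0, 1] 2 ≠ 0 :=
    (hcont ![0, 0, 1] 2).eventually_ne hγ
  -- choose r
  have hall := hev.and (hpos.and (hφ.and hH))
  rw [eventually_iff, mem_nhdsGT_iff_exists_Ioo_subset] at hall
  obtain ⟨r, hr, hsub⟩ := hall
  have hr' : (0 : ℝ) < r := hr
  have hφcont : ContinuousOn (fun y : ℝ => h ![0, (y : ℂ), 0] 1) (Set.Ioo 0 r) := by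
    intro y hy
    apply ContinuousAt.continuousWithinAt
    have h1 : ContinuousAt h ![0, (y : ℂ), 0] := (hsub hy).1.1.continuousAt
    have hc : Continuous (fun y : ℝ => (![0, (y : ℂ), 0] : Fin 3 → ℂ)) := by
      apply continuous_pi
      intro i
      fin_cases i
      · exact continuous_const
      · exact Complex.continuous_ofReal
      · exact continuous_const
    have h2 : ContinuousAt (fun y : ℝ => h ![0, (y : ℂ), 0]) y :=
      ContinuousAt.comp (g := h) h1 hc.continuousAt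
    exact (continuous_apply 1).continuousAt.comp h2
  have hdata : ∀ y ∈ Set.Ioo 0 r, h ![0, (y : ℂ), 0] 0 = 0 ∧ h ![0, (y : ℂ), 0] 2 = 0 ∧
      (Irrational y⁻¹ → ∃ m : ℤ, (h ![0, (y : ℂ), 0] 1)⁻¹ = (y : ℂ)⁻¹ + 1 / 2 + m) := by
    intro y hy
    obtain ⟨⟨h1, h2, h3⟩, h4, h5, h6⟩ := hsub hy
    obtain ⟨h00, c, hc⟩ := step3a h4 h1 h2 h5 g h3
    have hd := step3b h4 h1 h2 h5 h00 c hc
    refine ⟨h00, hd.self_of_nhds, ?_⟩
    intro hirr
    obtain ⟨m, hm⟩ := step4 h4 h1 h2 h5 h00 c hc hd h6 (by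
      intro a b ha hab
      rw [irrational_iff_ne_rational] at hirr
      apply hirr b a ha
      have h7 : (a : ℝ) * y⁻¹ = b := by
        have h8 : (((a : ℝ) * y⁻¹ : ℝ) : ℂ) = ((b : ℝ) : ℂ) := by
          push_cast
          rw [← hab, one_div]
        exact_mod_cast h8
      have h9 : (a : ℝ) ≠ 0 := by exact_mod_cast ha
      rw [eq_div_iff h9, ← h7]; ring)
    refine ⟨m, ?_⟩
    rw [← one_div, hm, one_div]
  obtain ⟨m, hm⟩ := const_shift (fun y : ℝ => h ![0, (y : ℂ), 0] 1) r hφcont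
    (fun y hy => (hsub hy).2.2.1) (fun y hy => (hdata y hy).2.2)
  apply no_period h r hr' m _ k hk hper
  intro y hy
  have h1 := hm y hy
  funext i
  fin_cases i
  · exact (hdata y hy).1
  · show h ![0, (y : ℂ), 0] 1 = ((y⁻¹ + 1 / 2 + m)⁻¹ : ℝ)
    rw [← inv_inv (h ![0, (y : ℂ), 0] 1)]
    rw [h1]
    push_cast
    ring
  · exact (hdata y hy).2.1

end Pool.Agent.H92Rev
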