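import Pool.Agent.H92RevOld.Strip
import Pool.Agent.H92RevOld.Inv
import Pool.Agent.H92RevOld.Match
import Pool.Agent.H92RevOld.Ex
import Pool.Agent.H92RevOld.Iter

set_option autoImplicit false
open Filter Topology

namespace Pool.Agent.H92Rev

theorem fM_pt (x y z : ℂ) : fM ![x, y, z] = ![x / (1 + x * y), y, Am x y * z] := by
  simp [fM]

theorem fM_one (p : Fin 3 → ℂ) : fM p 1 = p 1 := by simp [fM]
theorem fM_zero' (p : Fin 3 → ℂ) : fM p 0 = p 0 / (1 + p 0 * p 1) := by simp [fM]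
theorem fM_two (p : Fin 3 → ℂ) : fM p 2 = Am (p 0) (p 1) * p 2 := by simp [fM]

theorem Am_zero (y : ℂ) : Am 0 y = 1 := by simp [Am]

theorem Am_eq (x y : ℂ) (hx : x ≠ 0) (hy : y ≠ 0) (h1 : 1 + 2 * x ≠ 0) (h2 : 1 - x ≠ 0) :
    MA (1 / y) (1 / (x * y)) * Am x y = NA (1 / y) (1 / (x * y)) := by
  have e1 : 1 / (x * y) + 2 * (1 / y) = (1 + 2 * x) / (x * y) := by field_simp
  have e2 : 1 / (x * y) - 1 / y = (1 - x) / (x * y) := by field_simp
  have e3 : 1 / (x * y) - 2 * (1 / y) - 1 / 2 = (1 - (2 + y / 2) * x) / (x * y) := by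
    field_simp; ring
  have e4 : 1 / (x * y) + 1 / y = (1 + x) / (x * y) := by field_simp
  unfold MA NA Am
  rw [e1, e2, e3, e4]
  generalize 1 - (2 + y / 2) * x = X1 at *
  generalize 1 + 2 * x = X2 at *
  generalize 1 + x = X3 at *
  generalize 1 - x = X4 at *
  field_simp

theorem tendsto_x (y : ℂ) : Tendsto (fun x : ℂ => (![x, y, 0] : Fin 3 → ℂ)) (𝓝 0) (𝓝 ![0, y, 0]) := by
  have hc : Continuous (fun x : ℂ => (![x, y, 0] : Fin 3 → ℂ)) := by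
    apply continuous_pi
    intro i
    fin_cases i
    · exact continuous_id
    · exact continuous_const
    · exact continuous_const
  exact hc.tendsto 0

theorem tendsto_z (x y : ℂ) : Tendsto (fun z : ℂ => (![x, y, z] : Fin 3 → ℂ)) (𝓝 0) (𝓝 ![x, y, 0]) := by
  have hc : Continuous (fun z : ℂ => (![x, y, z] : Fin 3 → ℂ)) := by
    apply continuous_pi
    intro i
    fin_cases i
    · exact continuous_const
    · exact continuous_const
    · exact continuous_id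
  exact hc.tendsto 0

theorem tendsto_g (y : ℂ) : Tendsto (fun x : ℂ => x / (1 + x * y)) (𝓝 0) (𝓝 0) := by
  have hc : ContinuousAt (fun x : ℂ => x / (1 + x * y)) 0 := by
    apply ContinuousAt.div (by fun_prop) (by fun_prop) (by simp)
  have := hc.tendsto
  simpa using this

theorem tendsto_g' (y : ℂ) : Tendsto (fun x : ℂ => x / (1 + x * y)) (𝓝[≠] 0) (𝓝[≠] 0) := by
  rw [tendsto_nhdsWithin_iff]
  constructor
  · exact (tendsto_g y).mono_left nhdsWithin_le_nhds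
  · have hc : ContinuousAt (fun x : ℂ => 1 + x * y) 0 := by fun_prop
    have h1 : ∀ᶠ x : ℂ in 𝓝[≠] 0, 1 + x * y ≠ 0 :=
      (hc.eventually_ne (by simp)).filter_mono nhdsWithin_le_nhds
    filter_upwards [h1, self_mem_nhdsWithin] with x h2 h3
    exact div_ne_zero h3 h2

theorem deriv_z (h : (Fin 3 → ℂ) → (Fin 3 → ℂ)) (x y c : ℂ)
    (hd : DifferentiableAt ℂ h ![x, y, 0]) (i : Fin 3) :
    HasDerivAt (fun z : ℂ => h ![x, y, c * z] i) (c * (fderiv ℂ h ![x, y, 0] ![0, 0, 1] i)) 0 := by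
  have h1 : HasDerivAt (fun z : ℂ => (![x, y, c * z] : Fin 3 → ℂ)) ![0, 0, c] 0 := by
    rw [hasDerivAt_pi]
    intro i
    fin_cases i
    · exact hasDerivAt_const _ _
    · exact hasDerivAt_const _ _
    · have := (hasDerivAt_id (0 : ℂ)).const_mul c
      simpa using this
  have h2 : HasFDerivAt h (fderiv ℂ h ![x, y, 0]) ![x, y, c * 0] := by
    rw [mul_zero]; exact hd.hasFDerivAt
  have h3 := h2.comp_hasDerivAt (0 : ℂ) h1
  have h4 := (hasDerivAt_pi.1 h3) i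
  have h5 : (![0, 0, c] : Fin 3 → ℂ) = c • ![0, 0, 1] := by
    funext j; fin_cases j <;> simp
  rw [h5, map_smul] at h4
  exact h4

variable {h : (Fin 3 → ℂ) → (Fin 3 → ℂ)}

theorem coord_x_analytic {y : ℂ} (hA : AnalyticAt ℂ h ![0, y, 0]) (i : Fin 3) :
    AnalyticAt ℂ (fun x : ℂ => h ![x, y, 0] i) 0 := by
  have h1 : AnalyticAt ℂ (fun x : ℂ => (![x, y, 0] : Fin 3 → ℂ)) 0 :=
    vec3_analytic analyticAt_id analyticAt_const analyticAt_const
  have h2 : AnalyticAt ℂ (fun x : ℂ => h ![x, y, 0]) 0 :=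
    AnalyticAt.comp (g := h) (f := fun x : ℂ => (![x, y, 0] : Fin 3 → ℂ)) hA h1
  exact (coord_analytic i _).comp h2

theorem coord_dz_analytic {y : ℂ} (hA : AnalyticAt ℂ h ![0, y, 0]) (i : Fin 3) :
    AnalyticAt ℂ (fun x : ℂ => fderiv ℂ h ![x, y, 0] ![0, 0, 1] i) 0 := by
  have h1 : AnalyticAt ℂ (fun x : ℂ => (![x, y, 0] : Fin 3 → ℂ)) 0 :=
    vec3_analytic analyticAt_id analyticAt_const analyticAt_const
  have h2 : AnalyticAt ℂ (fun x : ℂ => fderiv ℂ h ![x, y, 0]) 0 :=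
    AnalyticAt.comp (g := fderiv ℂ h) (f := fun x : ℂ => (![x, y, 0] : Fin 3 → ℂ)) hA.fderiv h1
  have h3 : AnalyticAt ℂ (fun x : ℂ => fderiv ℂ h ![x, y, 0] ![0, 0, 1]) 0 :=
    ((ContinuousLinearMap.apply ℂ (Fin 3 → ℂ) (![0, 0, 1] : Fin 3 → ℂ)).analyticAt _).comp h2
  exact (coord_analytic i _).comp h3

/-- the relation along the `x`-axis -/
theorem rel_x {y : ℂ} (hR : ∀ᶠ p in 𝓝 (![0, y, 0] : Fin 3 → ℂ), fM (h (fM p)) = h p) :
    ∀ᶠ x in 𝓝 (0 : ℂ), fM (h ![x / (1 + x * y), y, 0]) = h ![x, y, 0] := by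
  filter_upwards [(tendsto_x y).eventually hR] with x hx
  rw [fM_pt, mul_zero] at hx
  exact hx

theorem rel_xz {y : ℂ} (hR : ∀ᶠ p in 𝓝 (![0, y, 0] : Fin 3 → ℂ), fM (h (fM p)) = h p) :
    ∀ᶠ x in 𝓝 (0 : ℂ), ∀ᶠ z in 𝓝 (0 : ℂ),
      fM (h ![x / (1 + x * y), y, Am x y * z]) = h ![x, y, z] := by
  filter_upwards [(tendsto_x y).eventually (eventually_eventually_nhds.2 hR)] with x hx
  filter_upwards [(tendsto_z x y).eventually hx] with z hz
  rw [fM_pt] at hz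
  exact hz

/-- Step 1: the second coordinate is constant along the `x`-axis. -/
theorem step1 {y : ℝ} (hy : 0 < y) (hA : AnalyticAt ℂ h ![0, (y : ℂ), 0])
    (hR : ∀ᶠ p in 𝓝 (![0, (y : ℂ), 0] : Fin 3 → ℂ), fM (h (fM p)) = h p) :
    ∀ᶠ x in 𝓝 (0 : ℂ), h ![x, (y : ℂ), 0] 1 = h ![0, (y : ℂ), 0] 1 := by
  apply analytic_invariant y hy (fun x => h ![x, (y : ℂ), 0] 1) (coord_x_analytic hA 1)
  apply Filter.Eventually.filter_mono nhdsWithin_le_nhds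
  filter_upwards [rel_x hR] with x hx
  rw [← hx, fM_one]

/-- Step 2: the `z`-derivative of the second coordinate vanishes at `(0,y,0)`. -/
theorem step2 {y : ℝ} (hy : 0 < y) (hA : AnalyticAt ℂ h ![0, (y : ℂ), 0])
    (hR : ∀ᶠ p in 𝓝 (![0, (y : ℂ), 0] : Fin 3 → ℂ), fM (h (fM p)) = h p) :
    fderiv ℂ h ![0, (y : ℂ), 0] ![0, 0, 1] 1 = 0 := by
  by_contra hne
  have hyC : (y : ℂ) ≠ 0 := by exact_mod_cast hy.ne'
  set F : ℂ → ℂ := fun x => fderiv ℂ h ![x, (y : ℂ), 0] ![0, 0, 1] 1 with hF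
  have hFa : AnalyticAt ℂ F 0 := coord_dz_analytic hA 1
  have hdiff : ∀ᶠ x in 𝓝 (0 : ℂ), DifferentiableAt ℂ h ![x, (y : ℂ), 0] :=
    ((tendsto_x (y : ℂ)).eventually hA.eventually_analyticAt).mono fun x hx => hx.differentiableAt
  have hrelF : ∀ᶠ x in 𝓝 (0 : ℂ), F x = Am x y * F (x / (1 + x * y)) := by
    filter_upwards [rel_xz hR, hdiff, (tendsto_g (y : ℂ)).eventually hdiff] with x h1 h2 h3
    have d1 := deriv_z h x y 1 h2 1
    have d2 := deriv_z h (x / (1 + x * y)) y (Am x y) h3 1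
    have h4 : (fun z : ℂ => h ![x, (y : ℂ), 1 * z] 1) =ᶠ[𝓝 0]
        (fun z : ℂ => h ![x / (1 + x * y), (y : ℂ), Am x y * z] 1) := by
      filter_upwards [h1] with z hz
      rw [one_mul, ← hz, fM_one]
    have h5 := (d2.congr_of_eventuallyEq h4).unique d1
    rw [one_mul] at h5
    exact h5.symm
  have hsm1 : ∀ᶠ x in 𝓝 (0 : ℂ), 1 + 2 * x ≠ 0 := by
    have hc : ContinuousAt (fun x : ℂ => 1 + 2 * x) 0 := by fun_prop
    exact hc.eventually_ne (by simp)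
  have hsm2 : ∀ᶠ x in 𝓝 (0 : ℂ), 1 - x ≠ 0 := by
    have hc : ContinuousAt (fun x : ℂ => 1 - x) 0 := by fun_prop
    exact hc.eventually_ne (by simp)
  have hNd : ∀ s : ℂ, Differentiable ℂ (NA s) := by intro s; unfold NA; fun_prop
  have hMd : ∀ s : ℂ, Differentiable ℂ (MA s) := by intro s; unfold MA; fun_prop
  have hcl := germ_classes (y : ℂ) hyC F (NA (1 / y)) (MA (1 / y)) hFa (hNd _) (hMd _) (by
    filter_upwards [hrelF.filter_mono nhdsWithin_le_nhds, hsm1.filter_mono nhdsWithin_le_nhds,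
      hsm2.filter_mono nhdsWithin_le_nhds, self_mem_nhdsWithin] with x h1 h2 h3 h4
    rw [h1, ← mul_assoc, Am_eq x y h4 hyC h2 h3]) (by
    intro hev
    exact hne hev.self_of_nhds)
  exact no_match _ hcl.1 hcl.2

theorem NA_diff (s : ℂ) : Differentiable ℂ (NA s) := by unfold NA; fun_prop
theorem MA_diff (s : ℂ) : Differentiable ℂ (MA s) := by unfold MA; fun_prop

/-- Step 3a: the shape of the first coordinate. -/
theorem step3a {y : ℝ} (hy : 0 < y) (hA : AnalyticAt ℂ h ![0, (y : ℂ), 0])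
    (hR : ∀ᶠ p in 𝓝 (![0, (y : ℂ), 0] : Fin 3 → ℂ), fM (h (fM p)) = h p)
    (hφ : h ![0, (y : ℂ), 0] 1 ≠ 0)
    (g : (Fin 3 → ℂ) → (Fin 3 → ℂ))
    (hg : ∀ᶠ p in 𝓝 (![0, (y : ℂ), 0] : Fin 3 → ℂ), g (h p) = p) :
    h ![0, (y : ℂ), 0] 0 = 0 ∧ ∃ c : ℂ, ∀ᶠ x in 𝓝[≠] (0 : ℂ), h ![x, (y : ℂ), 0] 0 ≠ 0 ∧
      (h ![x, (y : ℂ), 0] 0 * h ![0, (y : ℂ), 0] 1)⁻¹ = - (x * y)⁻¹ + c := by
  have hb := step1 hy hA hR
  apply first_coord y hy (h ![0, (y : ℂ), 0] 1) hφ (fun x => h ![x, (y : ℂ), 0] 0)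
    (coord_x_analytic hA 0)
  · filter_upwards [rel_x hR, (tendsto_g (y : ℂ)).eventually hb] with x h1 h2
    rw [← h1, fM_zero', h2]
  · intro ha0
    -- then `h` is constant along the `x`-axis
    have hd : ∀ᶠ x in 𝓝 (0 : ℂ), h ![x, (y : ℂ), 0] 2 = h ![0, (y : ℂ), 0] 2 := by
      apply analytic_invariant y hy (fun x => h ![x, (y : ℂ), 0] 2) (coord_x_analytic hA 2)
      apply Filter.Eventually.filter_mono nhdsWithin_le_nhds
      filter_upwards [rel_x hR, (tendsto_g (y : ℂ)).eventually ha0] with x h1 h2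
      rw [← h1, fM_two, h2, Am_zero, one_mul]
    have hconst : ∀ᶠ x in 𝓝 (0 : ℂ), h ![x, (y : ℂ), 0] = h ![0, (y : ℂ), 0] := by
      filter_upwards [ha0, hb, hd] with x h1 h2 h3
      funext i
      fin_cases i
      · show h ![x, (y : ℂ), 0] 0 = h ![0, (y : ℂ), 0] 0
        rw [h1, ha0.self_of_nhds]
      · exact h2
      · exact h3
    have h4 : ∀ᶠ x in 𝓝 (0 : ℂ), x = 0 := by
      filter_upwards [hconst, (tendsto_x (y : ℂ)).eventually hg] with x h1 h2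
      rw [h1, hg.self_of_nhds] at h2
      have := congrFun h2 0
      simpa using this.symm
    have h5 : ∃ᶠ x in 𝓝[≠] (0 : ℂ), x = 0 :=
      (h4.filter_mono nhdsWithin_le_nhds).frequently
    have h6 : ∀ᶠ x in 𝓝[≠] (0 : ℂ), ¬ x = 0 := self_mem_nhdsWithin
    exact h5 h6

/-- the multiplier along the image curve -/
theorem Am_image {y : ℝ} (hy : 0 < y) (hA : AnalyticAt ℂ h ![0, (y : ℂ), 0])
    (hφ : h ![0, (y : ℂ), 0] 1 ≠ 0) (h00 : h ![0, (y : ℂ), 0] 0 = 0) (c : ℂ)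
    (hc : ∀ᶠ x in 𝓝[≠] (0 : ℂ), h ![x, (y : ℂ), 0] 0 ≠ 0 ∧
      (h ![x, (y : ℂ), 0] 0 * h ![0, (y : ℂ), 0] 1)⁻¹ = - (x * y)⁻¹ + c) :
    ∀ᶠ x in 𝓝[≠] (0 : ℂ),
      MA (1 / h ![0, (y : ℂ), 0] 1) (c - 1 - 1 / (x * y)) *
        Am (h ![x / (1 + x * y), (y : ℂ), 0] 0) (h ![0, (y : ℂ), 0] 1) =
      NA (1 / h ![0, (y : ℂ), 0] 1) (c - 1 - 1 / (x * y)) := by
  have hyC : (y : ℂ) ≠ 0 := by exact_mod_cast hy.ne'
  have hac : ContinuousAt (fun x : ℂ => h ![x, (y : ℂ), 0] 0) 0 :=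
    (coord_x_analytic hA 0).continuousAt
  have hsm1 : ∀ᶠ x in 𝓝 (0 : ℂ), 1 + 2 * h ![x, (y : ℂ), 0] 0 ≠ 0 := by
    have hc : ContinuousAt (fun x : ℂ => 1 + 2 * h ![x, (y : ℂ), 0] 0) 0 :=
      continuousAt_const.add (continuousAt_const.mul hac)
    exact hc.eventually_ne (by simp [h00])
  have hsm2 : ∀ᶠ x in 𝓝 (0 : ℂ), 1 - h ![x, (y : ℂ), 0] 0 ≠ 0 := by
    have hc : ContinuousAt (fun x : ℂ => 1 - h ![x, (y : ℂ), 0] 0) 0 :=
      continuousAt_const.sub hac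
    exact hc.eventually_ne (by simp [h00])
  have hsm3 : ∀ᶠ x in 𝓝 (0 : ℂ), 1 + x * (y : ℂ) ≠ 0 := by
    have hc : ContinuousAt (fun x : ℂ => 1 + x * (y : ℂ)) 0 := by fun_prop
    exact hc.eventually_ne (by simp)
  filter_upwards [(tendsto_g' (y : ℂ)).eventually hc,
    ((tendsto_g (y : ℂ)).eventually hsm1).filter_mono nhdsWithin_le_nhds,
    ((tendsto_g (y : ℂ)).eventually hsm2).filter_mono nhdsWithin_le_nhds,
    hsm3.filter_mono nhdsWithin_le_nhds, self_mem_nhdsWithin] with x h1 h2 h3 h4 h5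
  have hx : x ≠ 0 := h5
  have h6 := Am_eq _ _ h1.1 hφ h2 h3
  have h7 : 1 / (h ![x / (1 + x * (y : ℂ)), (y : ℂ), 0] 0 * h ![0, (y : ℂ), 0] 1) =
      c - 1 - 1 / (x * y) := by
    rw [one_div, h1.2]
    field_simp
    ring
  rw [h7] at h6
  exact h6

/-- Step 3b: the third coordinate vanishes along the `x`-axis. -/
theorem step3b {y : ℝ} (hy : 0 < y) (hA : AnalyticAt ℂ h ![0, (y : ℂ), 0])
    (hR : ∀ᶠ p in 𝓝 (![0, (y : ℂ), 0] : Fin 3 → ℂ), fM (h (fM p)) = h p)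
    (hφ : h ![0, (y : ℂ), 0] 1 ≠ 0)
    (h00 : h ![0, (y : ℂ), 0] 0 = 0) (c : ℂ)
    (hc : ∀ᶠ x in 𝓝[≠] (0 : ℂ), h ![x, (y : ℂ), 0] 0 ≠ 0 ∧
      (h ![x, (y : ℂ), 0] 0 * h ![0, (y : ℂ), 0] 1)⁻¹ = - (x * y)⁻¹ + c) :
    ∀ᶠ x in 𝓝 (0 : ℂ), h ![x, (y : ℂ), 0] 2 = 0 := by
  by_contra hne
  have hyC : (y : ℂ) ≠ 0 := by exact_mod_cast hy.ne'
  have hb := step1 hy hA hR
  set τ : ℂ := 1 / h ![0, (y : ℂ), 0] 1 with hτ
  have hcl := germ_classes (y : ℂ) hyC (fun x => h ![x, (y : ℂ), 0] 2)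
    (fun w => NA τ (c - 1 - w)) (fun w => MA τ (c - 1 - w)) (coord_x_analytic hA 2)
    ((NA_diff τ).comp (by fun_prop)) ((MA_diff τ).comp (by fun_prop)) (by
      filter_upwards [Am_image hy hA hφ h00 c hc, (rel_x hR).filter_mono nhdsWithin_le_nhds,
        ((tendsto_g (y : ℂ)).eventually hb).filter_mono nhdsWithin_le_nhds] with x h1 h2 h3
      rw [← h2, fM_two, h3, ← mul_assoc, h1]) hne
  apply no_match τ
  · intro α hα
    obtain ⟨n, hn⟩ := hcl.1 (c - 1 - α) (by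
      simp only [sub_sub_cancel]; exact hα)
    refine ⟨-n, ?_⟩
    rw [← hn]
    congr 1
    push_cast
    ring
  · intro α hα
    obtain ⟨n, hn⟩ := hcl.2 (c - 1 - α) (by
      simp only [sub_sub_cancel]; exact hα)
    refine ⟨-n, ?_⟩
    rw [← hn]
    congr 1
    push_cast
    ring

/-- Step 4: the shift. -/
theorem step4 {y : ℝ} (hy : 0 < y) (hA : AnalyticAt ℂ h ![0, (y : ℂ), 0])
    (hR : ∀ᶠ p in 𝓝 (![0, (y : ℂ), 0] : Fin 3 → ℂ), fM (h (fM p)) = h p)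
    (hφ : h ![0, (y : ℂ), 0] 1 ≠ 0)
    (h00 : h ![0, (y : ℂ), 0] 0 = 0) (c : ℂ)
    (hc : ∀ᶠ x in 𝓝[≠] (0 : ℂ), h ![x, (y : ℂ), 0] 0 ≠ 0 ∧
      (h ![x, (y : ℂ), 0] 0 * h ![0, (y : ℂ), 0] 1)⁻¹ = - (x * y)⁻¹ + c)
    (hd : ∀ᶠ x in 𝓝 (0 : ℂ), h ![x, (y : ℂ), 0] 2 = 0)
    (hH : fderiv ℂ h ![0, (y : ℂ), 0] ![0, 0, 1] 2 ≠ 0)
    (hs : ∀ a b : ℤ, a ≠ 0 → (a : ℂ) * (1 / (y : ℂ)) ≠ b) :
    ∃ m : ℤ, 1 / h ![0, (y : ℂ), 0] 1 = 1 / (y : ℂ) + 1 / 2 + m := by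
  have hyC : (y : ℂ) ≠ 0 := by exact_mod_cast hy.ne'
  have hb := step1 hy hA hR
  have hac : ContinuousAt (fun x : ℂ => h ![x, (y : ℂ), 0] 0) 0 :=
    (coord_x_analytic hA 0).continuousAt
  have hsm1 : ∀ᶠ x in 𝓝 (0 : ℂ), 1 + 2 * h ![x, (y : ℂ), 0] 0 ≠ 0 := by
    have hc : ContinuousAt (fun x : ℂ => 1 + 2 * h ![x, (y : ℂ), 0] 0) 0 :=
      continuousAt_const.add (continuousAt_const.mul hac)
    exact hc.eventually_ne (by simp [h00])
  have hsm2 : ∀ᶠ x in 𝓝 (0 : ℂ), 1 - h ![x, (y : ℂ), 0] 0 ≠ 0 := by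
    have hc : ContinuousAt (fun x : ℂ => 1 - h ![x, (y : ℂ), 0] 0) 0 :=
      continuousAt_const.sub hac
    exact hc.eventually_ne (by simp [h00])
  have hx1 : ∀ᶠ x in 𝓝 (0 : ℂ), 1 + 2 * x ≠ 0 := by
    have hc : ContinuousAt (fun x : ℂ => 1 + 2 * x) 0 := by fun_prop
    exact hc.eventually_ne (by simp)
  have hx2 : ∀ᶠ x in 𝓝 (0 : ℂ), 1 - x ≠ 0 := by
    have hc : ContinuousAt (fun x : ℂ => 1 - x) 0 := by fun_prop
    exact hc.eventually_ne (by simp)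
  set φ : ℂ := h ![0, (y : ℂ), 0] 1 with hφdef
  set F : ℂ → ℂ := fun x => fderiv ℂ h ![x, (y : ℂ), 0] ![0, 0, 1] 2 with hF
  have hFa : AnalyticAt ℂ F 0 := coord_dz_analytic hA 2
  have hdiff : ∀ᶠ x in 𝓝 (0 : ℂ), AnalyticAt ℂ h ![x, (y : ℂ), 0] :=
    (tendsto_x (y : ℂ)).eventually hA.eventually_analyticAt
  have hrelF : ∀ᶠ x in 𝓝 (0 : ℂ), F x =
      Am (h ![x / (1 + x * y), (y : ℂ), 0] 0) φ * Am x y * F (x / (1 + x * y)) := by
    filter_upwards [rel_xz hR, hdiff, (tendsto_g (y : ℂ)).eventually hdiff,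
      (tendsto_g (y : ℂ)).eventually hd, (tendsto_g (y : ℂ)).eventually hb,
      (tendsto_g (y : ℂ)).eventually hsm1, (tendsto_g (y : ℂ)).eventually hsm2]
      with x h1 h2 h3 h4 h5 h6 h7
    have d1 := deriv_z h x y 1 h2.differentiableAt 2
    have d2 := deriv_z h (x / (1 + x * y)) y (Am x y) h3.differentiableAt 2
    have d0 := deriv_z h (x / (1 + x * y)) y (Am x y) h3.differentiableAt 0
    -- differentiability of the multiplier factor
    have hcurve : AnalyticAt ℂ (fun z : ℂ => (![x / (1 + x * y), (y : ℂ), Am x y * z] : Fin 3 → ℂ)) 0 :=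
      vec3_analytic analyticAt_const analyticAt_const (analyticAt_const.fun_mul analyticAt_id)
    have hh3 : AnalyticAt ℂ h ![x / (1 + x * y), (y : ℂ), Am x y * 0] := by
      rw [mul_zero]; exact h3
    have hcomp : AnalyticAt ℂ (fun z : ℂ => h ![x / (1 + x * y), (y : ℂ), Am x y * z]) 0 :=
      AnalyticAt.comp (g := h)
        (f := fun z : ℂ => (![x / (1 + x * y), (y : ℂ), Am x y * z] : Fin 3 → ℂ)) hh3 hcurve
    have hu := (coord_analytic 0 _).comp hcomp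
    have hv := (coord_analytic 1 _).comp hcomp
    have hAmd : AnalyticAt ℂ (fun z : ℂ => Am (h ![x / (1 + x * y), (y : ℂ), Am x y * z] 0)
        (h ![x / (1 + x * y), (y : ℂ), Am x y * z] 1)) 0 := by
      apply Am_comp hu hv
      · simp only [Function.comp, mul_zero]; exact h6
      · simp only [Function.comp, mul_zero]; exact h7
    have d3 := hAmd.differentiableAt.hasDerivAt.mul d2
    have h8 : (fun z : ℂ => h ![x, (y : ℂ), 1 * z] 2) =ᶠ[𝓝 0]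
        ((fun z : ℂ => Am (h ![x / (1 + x * y), (y : ℂ), Am x y * z] 0)
        (h ![x / (1 + x * y), (y : ℂ), Am x y * z] 1)) *
        (fun z : ℂ => h ![x / (1 + x * y), (y : ℂ), Am x y * z] 2)) := by
      filter_upwards [h1] with z hz
      rw [one_mul, ← hz, fM_two]
      rfl
    have h9 := (d3.congr_of_eventuallyEq h8).unique d1
    simp only [mul_zero] at h9
    rw [h4, h5, one_mul] at h9
    rw [hF]
    simp only []
    rw [← h9]
    ring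
  have hcl := germ_classes (y : ℂ) hyC F (fun w => NA (1 / y) w * NA (1 / φ) (c - 1 - w))
    (fun w => MA (1 / y) w * MA (1 / φ) (c - 1 - w)) hFa
    ((NA_diff _).mul ((NA_diff (1 / φ)).comp (by fun_prop)))
    ((MA_diff _).mul ((MA_diff (1 / φ)).comp (by fun_prop))) (by
      filter_upwards [hrelF.filter_mono nhdsWithin_le_nhds, hx1.filter_mono nhdsWithin_le_nhds,
        hx2.filter_mono nhdsWithin_le_nhds, Am_image hy hA hφ h00 c hc, self_mem_nhdsWithin]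
        with x h1 h2 h3 h4 h5
      have h6 := Am_eq x y h5 hyC h2 h3
      rw [h1]
      calc MA (1 / (y : ℂ)) (1 / (x * y)) * MA (1 / φ) (c - 1 - 1 / (x * y)) *
          (Am (h ![x / (1 + x * y), (y : ℂ), 0] 0) φ * Am x y * F (x / (1 + x * y)))
          = (MA (1 / (y : ℂ)) (1 / (x * y)) * Am x y) * (MA (1 / φ) (c - 1 - 1 / (x * y)) *
            Am (h ![x / (1 + x * y), (y : ℂ), 0] 0) φ) * F (x / (1 + x * y)) := by ring
        _ = _ := by rw [h6, h4]) (by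
      intro hev
      exact hH hev.self_of_nhds)
  exact match_classes (1 / y) (1 / φ) c hs hcl.1 hcl.2

end Pool.Agent.H92Rev
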